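import Pool.Agent.EDX.Stmts3

/-!
# Squad EDX, row ARC: the archimedean bound for the determinant
-/

set_option autoImplicit false

namespace Pool.Agent.EDX.H49

open Polynomial Finset Pool.Agent.EDG Pool.Agent.EDX

theorem arc (h1 : FamStmt) (h2 : CpkStmt) (h3 : FctStmt) (h4 : LlnStmt) : ArcStmt := by
  classical
  intro q₀ hq₀
  obtain ⟨M, T, hT, hcl⟩ := h1 q₀
  -- positivity of the column norms
  have hc : ∀ a x, 0 < ∑ r, ‖T a r x‖ ^ 2 := by
    intro a x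
    have h5 : 0 ≤ ∑ r, ‖T a r x‖ ^ 2 := Finset.sum_nonneg fun r _ => by positivity
    rcases h5.lt_or_eq with h6 | h6
    · exact h6
    · exfalso
      apply (hT a).1
      refine Matrix.det_eq_zero_of_column_eq_zero x fun r => ?_
      have h7 := (Finset.sum_eq_zero_iff_of_nonneg (fun r _ => by positivity)).1 h6.symm r
        (mem_univ r)
      have h8 : ‖T a r x‖ = 0 := by
        rcases pow_eq_zero_iff (two_ne_zero) |>.1 h7 with h9
        exact h9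
      exact norm_eq_zero.1 h8
  have hL : ∀ a, ∃ C : ℝ, 0 ≤ C ∧ ∀ m : ℕ, 0 < m →
      ∑ l : Fin m → Fin (2 ^ q₀), Real.log (1 + ∏ j, ∑ r, ‖T a r (l j)‖ ^ 2)
        ≤ C * Real.sqrt m * ((2 ^ q₀ : ℕ) : ℝ) ^ m := fun a =>
    h4 (2 ^ q₀) (fun x => ∑ r, ‖T a r x‖ ^ 2) (hc a) (hT a).2
  choose Ca hCa0 hCa using hL
  refine ⟨(∑ a, Ca a) / 2, div_nonneg (Finset.sum_nonneg fun a _ => hCa0 a) (by norm_num), ?_⟩
  intro m n q ι _ _ pt σ hm hpt hσ hσ2
  set A : ℝ := 36000 * (q₀ + 1) * 2 ^ q₀ with hA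
  have hA1 : 1 ≤ A := by
    rw [hA]
    have h5 : (1 : ℝ) ≤ 2 ^ q₀ := one_le_pow₀ (by norm_num)
    have h6 : (0 : ℝ) ≤ q₀ := Nat.cast_nonneg _
    nlinarith
  have hlogA : 0 ≤ Real.log A := Real.log_nonneg hA1
  have hlog4 : 0 ≤ Real.log 4 := Real.log_nonneg (by norm_num)
  have hlogn : 0 ≤ Real.log (n : ℝ) := Real.log_natCast_nonneg n
  have hsumC : 0 ≤ ∑ a, Ca a := Finset.sum_nonneg fun a _ => hCa0 a
  -- the right side is nonnegative
  set k : ℕ := (univ.filter fun x => q ≤ (σ x).1).card with hk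
  have hR : 0 ≤ n * Real.log 4 * k + Fintype.card ι * (Real.log n / 2 + q * Real.log 4 +
      m / 2 * Real.log A) + (∑ a, Ca a) / 2 * n * Real.sqrt m * 2 ^ (q₀ * m) := by
    positivity
  set D : ℂ := (Matrix.of fun p y : ι => (2 * (pt p).1) ^ (σ y).1 *
      ev (pt p).1 (pt p).2 (h (σ y).2)).det with hD
  by_cases hD0 : D = 0
  · rw [hD0, norm_zero, Real.log_zero]
    exact hR
  rcases isEmpty_or_nonempty ι with hι | ⟨⟨x₀⟩⟩
  · have h5 : D = 1 := Matrix.det_isEmpty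
    rw [h5, norm_one, Real.log_one]
    exact hR
  have hn : 0 < n := lt_of_le_of_lt (Nat.zero_le _) (hσ2 x₀).1
  have hn' : (0 : ℝ) < n := by exact_mod_cast hn
  -- the classes
  have hcl' : ∀ p, ∃ a, ∀ y : ℂ, ((pt p).1, y) ∈ KP →
      ∑ l, ‖((T a)⁻¹.mulVec (hv (2 ^ q₀) (pt p).1 y)) l‖ ^ 2 ≤ A := fun p =>
    hcl (pt p).1 (hpt p).1
  choose cl hclA using hcl'
  have h5 := h3 q₀ m n q M A T ι pt cl σ (fun a => (hT a).1) (fun p => (hpt p).1.1)
    (fun p j => hclA p _ (h2.2.2 (pt p).1 (pt p).2 (hpt p) j)) hσ hσ2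
  rw [← hD, ← hk] at h5
  have hDpos : 0 < ‖D‖ ^ 2 := by
    have := norm_pos_iff.2 hD0
    positivity
  have hf : ∀ a, ∀ l : Fin m → Fin (2 ^ q₀), 0 < 1 + ∏ j, ∑ r, ‖T a r (l j)‖ ^ 2 := by
    intro a l
    have h6 : 0 < ∏ j, ∑ r, ‖T a r (l j)‖ ^ 2 := Finset.prod_pos fun j _ => hc a (l j)
    linarith
  have h6 := Real.log_le_log hDpos h5
  have hp1 : (0 : ℝ) < 4 ^ (2 * n * k) := by positivity
  have hp2 : (0 : ℝ) < (n * 16 ^ q * A ^ m) ^ (Fintype.card ι) := by positivity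
  have hp3 : (0 : ℝ) < ∏ a, (∏ l : Fin m → Fin (2 ^ q₀),
      (1 + ∏ j, ∑ r, ‖T a r (l j)‖ ^ 2)) ^ n :=
    Finset.prod_pos fun a _ => pow_pos (Finset.prod_pos fun l _ => hf a l) n
  rw [Real.log_mul (mul_pos hp1 hp2).ne' hp3.ne', Real.log_mul hp1.ne' hp2.ne', Real.log_pow,
    Real.log_pow, Real.log_pow,
    Real.log_mul (by positivity) (by positivity), Real.log_mul (by positivity) (by positivity),
    Real.log_pow, Real.log_pow,
    Real.log_prod (fun a _ => (pow_pos (Finset.prod_pos fun l _ => hf a l) n).ne')] at h6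
  have h7 : ∀ a, Real.log ((∏ l : Fin m → Fin (2 ^ q₀),
      (1 + ∏ j, ∑ r, ‖T a r (l j)‖ ^ 2)) ^ n) ≤ n * (Ca a * Real.sqrt m * 2 ^ (q₀ * m)) := by
    intro a
    rw [Real.log_pow, Real.log_prod (fun l _ => (hf a l).ne')]
    refine mul_le_mul_of_nonneg_left ?_ hn'.le
    have h8 := hCa a m hm
    have h9 : ((2 ^ q₀ : ℕ) : ℝ) ^ m = 2 ^ (q₀ * m) := by
      push_cast
      rw [← pow_mul]
    rw [h9] at h8
    exact h8
  have h8 : ∑ a, Real.log ((∏ l : Fin m → Fin (2 ^ q₀),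
      (1 + ∏ j, ∑ r, ‖T a r (l j)‖ ^ 2)) ^ n)
      ≤ (∑ a, Ca a) * n * Real.sqrt m * 2 ^ (q₀ * m) := by
    refine (Finset.sum_le_sum fun a _ => h7 a).trans (le_of_eq ?_)
    rw [Finset.sum_mul, Finset.sum_mul, Finset.sum_mul]
    refine Finset.sum_congr rfl fun a _ => ?_
    ring
  have h16 : Real.log 16 = 2 * Real.log 4 := by
    have h9 : (16 : ℝ) = 4 ^ 2 := by norm_num
    rw [h9, Real.log_pow]
    norm_num
  rw [h16] at h6
  push_cast at h6
  have h9 : (2 : ℝ) * Real.log ‖D‖ ≤ 2 * (n * Real.log 4 * k + Fintype.card ι *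
      (Real.log n / 2 + q * Real.log 4 + m / 2 * Real.log A) +
      (∑ a, Ca a) / 2 * n * Real.sqrt m * 2 ^ (q₀ * m)) := by
    refine h6.trans ?_
    nlinarith [h8]
  linarith

end Pool.Agent.EDX.H49
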