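import Pool.Agent.EDX.Stmts3

/-!
# Squad EDX, row ARE: the area inequality for the inverse branches
-/

set_option autoImplicit false

namespace Pool.Agent.EDX.H49

open Polynomial Finset Pool.Agent.EDG Pool.Agent.EDX

theorem are_det (a : ℂ) :
    (ContinuousLinearMap.restrictScalars ℝ
      (ContinuousLinearMap.toSpanSingleton ℂ a : ℂ →L[ℂ] ℂ)).det = ‖a‖ ^ 2 := by
  have h1 : ((ContinuousLinearMap.restrictScalars ℝ
      (ContinuousLinearMap.toSpanSingleton ℂ a : ℂ →L[ℂ] ℂ)) : ℂ →ₗ[ℝ] ℂ)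
      = Algebra.lmul ℝ ℂ a := by
    apply LinearMap.ext
    intro z
    simp [mul_comm]
  show LinearMap.det _ = _
  rw [h1]
  show Algebra.norm ℝ a = _
  rw [Algebra.norm_complex_apply, Complex.normSq_eq_norm_sq]

theorem are_change (φ : ℂ → ℂ) (y : ℂ) (s : Set ℂ) (hs : MeasurableSet s)
    (hd : ∀ w ∈ s, HasDerivAt φ (deriv φ w) w) (hinj : Set.InjOn φ s) :
    ∫⁻ w in s, ENNReal.ofReal (‖deriv φ w / (y - φ w)‖ ^ 2)
      = ∫⁻ z in φ '' s, ENNReal.ofReal (1 / ‖z - y‖ ^ 2) := by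
  have hf' : ∀ w ∈ s, HasFDerivWithinAt φ (ContinuousLinearMap.restrictScalars ℝ
      (ContinuousLinearMap.toSpanSingleton ℂ (deriv φ w) : ℂ →L[ℂ] ℂ)) s w := fun w hw =>
    ((hd w hw).hasFDerivAt.restrictScalars ℝ).hasFDerivWithinAt
  rw [MeasureTheory.lintegral_image_eq_lintegral_abs_det_fderiv_mul _ hs hf' hinj]
  refine MeasureTheory.setLIntegral_congr_fun hs fun w _ => ?_
  show ENNReal.ofReal (‖deriv φ w / (y - φ w)‖ ^ 2)
    = ENNReal.ofReal |_| * ENNReal.ofReal (1 / ‖φ w - y‖ ^ 2)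
  rw [are_det, abs_of_nonneg (by positivity), ← ENNReal.ofReal_mul (by positivity), norm_div,
    div_pow, norm_sub_rev y]
  congr 1
  ring

theorem are_meas (φ : ℂ → ℂ) (s : Set ℂ) (hs : MeasurableSet s)
    (hd : ∀ w ∈ s, HasDerivAt φ (deriv φ w) w) (hinj : Set.InjOn φ s) :
    MeasurableSet (φ '' s) := by
  have hf' : ∀ w ∈ s, HasFDerivWithinAt φ (ContinuousLinearMap.restrictScalars ℝ
      (ContinuousLinearMap.toSpanSingleton ℂ (deriv φ w) : ℂ →L[ℂ] ℂ)) s w := fun w hw =>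
    ((hd w hw).hasFDerivAt.restrictScalars ℝ).hasFDerivWithinAt
  exact MeasureTheory.measurable_image_of_fderivWithin hs hf' hinj

theorem are (h1 : DsdStmt) (h2 : AnnStmt) : AreStmt := by
  intro b y q φ hφ hy
  obtain ⟨hdiff, hinv, hdist⟩ := hφ
  set s : Set ℂ := Metric.ball (4 : ℂ) (1 / 2) with hs
  have hsub : ∀ w ∈ s, w ∈ Metric.ball (4 : ℂ) 1 := fun w hw =>
    Metric.ball_subset_ball (by norm_num) hw
  have hsm : MeasurableSet s := measurableSet_ball
  have hd : ∀ l, ∀ w ∈ s, HasDerivAt (φ l) (deriv (φ l) w) w := fun l w hw =>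
    ((hdiff l).differentiableAt (Metric.isOpen_ball.mem_nhds (hsub w hw))).hasDerivAt
  have hinj : ∀ l, Set.InjOn (φ l) s := by
    intro l w hw w' hw' heq
    rw [← hinv l w (hsub w hw), ← hinv l w' (hsub w' hw'), heq]
  have hdisj : Set.PairwiseDisjoint (↑(univ : Finset (Fin (2 ^ q)))) fun l => φ l '' s := by
    intro l _ l' _ hne
    rw [Function.onFun, Set.disjoint_left]
    rintro z ⟨w, hw, hwz⟩ ⟨w', hw', hwz'⟩
    have h3 : w = w' := by
      rw [← hinv l w (hsub w hw), ← hinv l' w' (hsub w' hw'), hwz, hwz']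
    rw [← h3] at hwz'
    exact hne (hdist w (hsub w hw) l l' (hwz.trans hwz'.symm))
  have hmeas : ∀ l ∈ (univ : Finset (Fin (2 ^ q))), MeasurableSet (φ l '' s) := fun l _ =>
    are_meas (φ l) s hsm (hd l) (hinj l)
  have h4 : ∑ l, ∫⁻ w in s, ENNReal.ofReal (‖deriv (φ l) w / (y - φ l w)‖ ^ 2)
      = ∫⁻ z in ⋃ l ∈ (univ : Finset (Fin (2 ^ q))), φ l '' s,
        ENNReal.ofReal (1 / ‖z - y‖ ^ 2) := by
    rw [MeasureTheory.lintegral_biUnion_finset hdisj hmeas]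
    exact Finset.sum_congr rfl fun l _ => are_change (φ l) y s hsm (hd l) (hinj l)
  rw [h4]
  refine le_trans ?_ (h2 q)
  set A : Set ℂ := {u : ℂ | 1 / (7 : ℝ) ^ q ≤ ‖u‖ ∧ ‖u‖ ≤ 7} with hA
  have hAm : MeasurableSet A := by
    apply MeasurableSet.inter
    · exact measurableSet_le measurable_const measurable_norm
    · exact measurableSet_le measurable_norm measurable_const
  have h5 : ∫⁻ u in A, ENNReal.ofReal (1 / ‖u‖ ^ 2)
      = ∫⁻ z in (fun z => z - y) ⁻¹' A, ENNReal.ofReal (1 / ‖z - y‖ ^ 2) := by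
    have hBm : MeasurableSet ((fun z : ℂ => z - y) ⁻¹' A) :=
      (measurable_id.sub_const y) hAm
    rw [← MeasureTheory.lintegral_indicator hAm, ← MeasureTheory.lintegral_indicator hBm,
      ← MeasureTheory.lintegral_sub_right_eq_self _ y]
    rfl
  rw [h5]
  refine MeasureTheory.lintegral_mono_set ?_
  intro z hz
  rw [Set.mem_iUnion₂] at hz
  obtain ⟨l, _, w, hw, rfl⟩ := hz
  have h6 := h1 b y q φ ⟨hdiff, hinv, hdist⟩ hy l w (hsub w hw)
  exact h6

end Pool.Agent.EDX.H49
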