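import Pool.Agent.EDX.Stmts1

/-!
# Squad EDX, row HPR: products of the basis polynomials with disjoint binary digits
-/

set_option autoImplicit false

namespace Pool.Agent.EDX.H49

open Polynomial Finset Pool.Agent.EDG Pool.Agent.EDX

theorem hpr : HprStmt := by
  intro l
  induction l with
  | zero =>
    intro a b hb
    have hb0 : b = 0 := by
      rw [pow_zero] at hb
      omega
    rw [hb0, h_zero, mul_one, Nat.add_zero]
  | succ l ih =>
    intro a b hb
    have h2 : 2 ^ (l + 1) * a = 2 * (2 ^ l * a) := by
      rw [pow_succ]
      ring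
    rcases Nat.even_or_odd' b with ⟨b', hb' | hb'⟩
    · have hlt : b' < 2 ^ l := by
        rw [pow_succ] at hb
        omega
      have h3 : 2 ^ (l + 1) * a + b = 2 * (2 ^ l * a + b') := by
        rw [h2, hb']
        ring
      rw [h3, h_two_mul, ih a b' hlt, mul_comp, h2, hb', h_two_mul, h_two_mul]
    · have hlt : b' < 2 ^ l := by
        rw [pow_succ] at hb
        omega
      have h3 : 2 ^ (l + 1) * a + b = 2 * (2 ^ l * a + b') + 1 := by
        rw [h2, hb']
        ring
      rw [h3, h_two_mul_add_one, ih a b' hlt, mul_comp, h2, hb', h_two_mul, h_two_mul_add_one]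
      ring

end Pool.Agent.EDX.H49
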