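import Pool.Agent.EDX.Stmts3

/-!
# Squad EDX, row LGB: the bound for the Lagrange polynomials
-/

set_option autoImplicit false

namespace Pool.Agent.EDX.H49

open Polynomial Finset Pool.Agent.EDG Pool.Agent.EDX

theorem lgb (h1 : LgfStmt) (h2 : DsdStmt) (h3 : MvpStmt) (h4 : AreStmt) : LgbStmt := by
  intro b y q φ hφ hy
  have h4mem : (4 : ℂ) ∈ Metric.ball (4 : ℂ) 1 := Metric.mem_ball_self (by norm_num)
  have hne : ∀ l, ∀ w ∈ Metric.ball (4 : ℂ) 1, y - φ l w ≠ 0 := by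
    intro l w hw h0
    have h5 := (h2 b y q φ hφ hy l w hw).1
    rw [norm_sub_rev, h0, norm_zero] at h5
    have h6 : (0 : ℝ) < 1 / 7 ^ q := by positivity
    linarith
  -- the functions `G_l`
  set G : Fin (2 ^ q) → ℂ → ℂ := fun l w => deriv (φ l) w / (y - φ l w) with hG
  have hGd : ∀ l, DifferentiableOn ℂ (G l) (Metric.ball 4 1) := fun l =>
    ((hφ.1 l).deriv Metric.isOpen_ball).div ((differentiableOn_const y).sub (hφ.1 l))
      (fun w hw => hne l w hw)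
  have h5 : ∑ l, ENNReal.ofReal (‖G l 4‖ ^ 2 * (Real.pi / 4)) ≤ ENNReal.ofReal (60 * (q + 1)) :=
    (Finset.sum_le_sum fun l _ => h3 (G l) (hGd l)).trans (h4 b y q φ hφ hy)
  rw [← ENNReal.ofReal_sum_of_nonneg (fun l _ => by positivity),
    ENNReal.ofReal_le_ofReal_iff (by positivity), ← Finset.sum_mul] at h5
  have hS0 : 0 ≤ ∑ l, ‖G l 4‖ ^ 2 := Finset.sum_nonneg fun l _ => by positivity
  have hS : ∑ l, ‖G l 4‖ ^ 2 ≤ 80 * (q + 1) := by
    have hpi := Real.pi_gt_three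
    nlinarith
  have hle : ∀ l, ‖∏ l' ∈ univ.erase l, ((y - φ l' 4) / (φ l 4 - φ l' 4))‖ ^ 2
      ≤ 36 * ‖G l 4‖ ^ 2 := by
    intro l
    have hyl : y ≠ φ l 4 := fun h => hne l 4 h4mem (sub_eq_zero.2 h)
    rw [h1 b q φ hφ y l hyl, norm_mul, mul_pow]
    refine mul_le_mul_of_nonneg_right ?_ (by positivity)
    have h6 : ‖b + it b y q‖ ≤ 2 := hy.2 q
    have h7 : ‖b + it b y q - 4‖ ≤ 6 := by
      refine (norm_sub_le _ _).trans ?_
      have h8 : ‖(4 : ℂ)‖ = 4 := by simp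
      rw [h8]
      linarith
    have h9 := pow_le_pow_left₀ (norm_nonneg _) h7 2
    linarith
  refine (Finset.sum_le_sum fun l _ => hle l).trans ?_
  rw [← Finset.mul_sum]
  have hq : (0 : ℝ) ≤ q := Nat.cast_nonneg q
  linarith

end Pool.Agent.EDX.H49
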