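import Pool.Agent.EDX.Stmts2

/-!
# Squad EDX, row VAN: the Vandermonde determinant of the roots of `g` is at least one
-/

set_option autoImplicit false

namespace Pool.Agent.EDX.H49

open Polynomial Finset Pool.Agent.EDG Pool.Agent.EDX

theorem van_aux (K : Type) [Field K] [CharZero K] [Algebra ℚ K] (pb : PowerBasis ℚ K)
    (hint : IsIntegral ℤ pb.gen) (m : ℕ) (hm : pb.dim = m) :
    ∃ β : Fin m → ℂ, Function.Injective β ∧ (∀ t, ∃ φ : K →ₐ[ℚ] ℂ, β t = φ pb.gen) ∧
      1 ≤ ‖(Matrix.vandermonde β).det‖ := by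
  classical
  subst hm
  have : FiniteDimensional ℚ K := pb.finite
  have e : Fin pb.dim ≃ (K →ₐ[ℚ] ℂ) := by
    refine Fintype.equivOfCardEq ?_
    rw [Fintype.card_fin, AlgHom.card]
    exact (PowerBasis.finrank pb).symm
  have h1 := Algebra.discr_eq_det_embeddingsMatrixReindex_pow_two ℚ ℂ pb.basis e
  rw [Algebra.embeddingsMatrixReindex_eq_vandermonde, Matrix.det_transpose] at h1
  have h2 : Algebra.discr ℚ pb.basis ≠ 0 := Algebra.discr_not_zero_of_basis ℚ pb.basis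
  have h3 : IsIntegral ℤ (Algebra.discr ℚ pb.basis) := by
    refine Algebra.discr_isIntegral ℚ fun i => ?_
    rw [PowerBasis.basis_eq_pow]
    exact hint.pow _
  obtain ⟨z, hz⟩ := IsIntegrallyClosed.isIntegral_iff.1 h3
  have hz0 : z ≠ 0 := by
    rintro rfl
    apply h2
    rw [← hz, map_zero]
  have h4 : ((z : ℤ) : ℂ) = (Matrix.vandermonde fun i => e i pb.gen).det ^ 2 := by
    rw [← h1, ← hz]
    simp
  have h5 : 1 ≤ ‖(Matrix.vandermonde fun i => e i pb.gen).det‖ ^ 2 := by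
    rw [← norm_pow, ← h4, Complex.norm_intCast]
    exact_mod_cast Int.one_le_abs hz0
  refine ⟨fun i => e i pb.gen, ?_, fun t => ⟨e t, rfl⟩, ?_⟩
  · intro i j hij
    exact e.injective (pb.algHom_ext hij)
  · by_contra hlt
    rw [not_le] at hlt
    have h6 : ‖(Matrix.vandermonde fun i => e i pb.gen).det‖ ^ 2 < 1 :=
      pow_lt_one₀ (norm_nonneg _) hlt two_ne_zero
    linarith

theorem van : VanStmt := by
  intro n g hg
  have hirr : Irreducible (g.map (algebraMap ℤ ℚ)) :=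
    (hg.monic.irreducible_iff_irreducible_map_fraction_map (K := ℚ)).1 hg.irr
  have : Fact (Irreducible (g.map (algebraMap ℤ ℚ))) := ⟨hirr⟩
  have hmon : (g.map (algebraMap ℤ ℚ)).Monic := hg.monic.map _
  have hgen : aeval (AdjoinRoot.root (g.map (algebraMap ℤ ℚ))) g = 0 := by
    have h1 : eval₂ (AdjoinRoot.of (g.map (algebraMap ℤ ℚ)))
        (AdjoinRoot.root (g.map (algebraMap ℤ ℚ))) (g.map (algebraMap ℤ ℚ)) = 0 :=
      AdjoinRoot.eval₂_root _
    rw [eval₂_map] at h1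
    rw [aeval_def]
    have h2 : (AdjoinRoot.of (g.map (algebraMap ℤ ℚ))).comp (algebraMap ℤ ℚ)
        = algebraMap ℤ (AdjoinRoot (g.map (algebraMap ℤ ℚ))) := RingHom.ext_int _ _
    rw [← h2]
    exact h1
  obtain ⟨β, hinj, hβ, hdet⟩ := van_aux (AdjoinRoot (g.map (algebraMap ℤ ℚ)))
    (AdjoinRoot.powerBasis hmon.ne_zero) (by
      rw [AdjoinRoot.powerBasis_gen]
      exact ⟨g, hg.monic, hgen⟩) g.natDegree (by
      rw [AdjoinRoot.powerBasis_dim, hg.monic.natDegree_map])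
  refine ⟨β, hinj, fun t => ?_, hdet⟩
  obtain ⟨φ, hφ⟩ := hβ t
  rw [hφ, AdjoinRoot.powerBasis_gen]
  have h3 : aeval (φ (AdjoinRoot.root (g.map (algebraMap ℤ ℚ)))) g
      = φ (aeval (AdjoinRoot.root (g.map (algebraMap ℤ ℚ))) g) := by
    have h4 := aeval_algHom_apply (φ.restrictScalars ℤ)
      (AdjoinRoot.root (g.map (algebraMap ℤ ℚ))) g
    exact h4
  rw [h3, hgen, map_zero]

end Pool.Agent.EDX.H49
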